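import Mathlib

/-!
# An eight-dimensional pointed Hopf algebra

`H = k⟨g, x : g⁴ = 1, x² = 0, g x = - x g⟩` with `Δ g = g ⊗ g` and `Δ x = x ⊗ 1 + g ⊗ x`, and the
associative algebra `H_t = k⟨g, x : g⁴ = 1, x² = t, g x = - x g⟩` on the same vector space.
-/

set_option autoImplicit false

open scoped TensorProduct

namespace Pool.Agent.R710.Doi

/-- the parity of an element of `ℤ / 4` -/
def sg (j : ZMod 4) : ℤ := if j.val % 2 = 0 then 1 else -1

theorem sg_add : ∀ i j : ZMod 4, sg (i + j) = sg i * sg j := by decide
theorem sg_zero : sg 0 = 1 := by decide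
theorem sg_one : sg 1 = -1 := by decide
theorem sg_neg : ∀ j : ZMod 4, sg (-j) = sg j := by decide
theorem sg_mul_self : ∀ j : ZMod 4, sg j * sg j = 1 := by decide

variable (k : Type*) [Field k]

/-- The underlying vector space; the basis vector `(i, false)` is `g ^ i`, the basis vector
`(i, true)` is `g ^ i x`. -/
def HH : Type _ := (ZMod 4 × Bool) →₀ k

noncomputable instance : AddCommGroup (HH k) := inferInstanceAs (AddCommGroup ((ZMod 4 × Bool) →₀ k))
noncomputable instance : Module k (HH k) := inferInstanceAs (Module k ((ZMod 4 × Bool) →₀ k))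

variable {k}

/-- a basis vector -/
noncomputable def e (p : ZMod 4 × Bool) : HH k := Finsupp.single p (1 : k)

variable (k) in
/-- the basis -/
noncomputable def bas : Module.Basis (ZMod 4 × Bool) k (HH k) := ⟨LinearEquiv.refl k _⟩

theorem bas_apply (p : ZMod 4 × Bool) : bas k p = e p := rfl

/-- products of basis vectors -/
noncomputable def mulB (t : k) : ZMod 4 × Bool → ZMod 4 × Bool → HH k
  | (i, false), (j, s) => e (i + j, s)
  | (i, true), (j, false) => (sg j : k) • e (i + j, true)
  | (i, true), (j, true) => (t * sg j : k) • e (i + j, false)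

/-- the multiplication with `x² = t` -/
noncomputable def mulT (t : k) : HH k →ₗ[k] HH k →ₗ[k] HH k :=
  (bas k).constr k fun p => (bas k).constr k fun q => mulB t p q

@[simp] theorem mulT_e (t : k) (p q : ZMod 4 × Bool) : mulT t (e p) (e q) = mulB t p q := by
  rw [mulT, ← bas_apply, ← bas_apply, Module.Basis.constr_basis, Module.Basis.constr_basis]

theorem HH.induction {P : HH k → Prop} (x : HH k) (he : ∀ p, P (e p))
    (hadd : ∀ x y, P x → P y → P (x + y)) (hsmul : ∀ (c : k) x, P x → P (c • x)) : P x := by
  have h0 : P 0 := by
    have := hsmul 0 _ (he (0, false))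
    rwa [zero_smul] at this
  refine Finsupp.induction_linear (motive := P) x h0 (fun f g hf hg => hadd f g hf hg) ?_
  intro a b
  have : (Finsupp.single a b : HH k) = b • e a :=
    (Finsupp.smul_single_one a b).symm
  rw [this]
  exact hsmul _ _ (he a)

theorem mulT_assoc (t : k) (x y z : HH k) :
    mulT t (mulT t x y) z = mulT t x (mulT t y z) := by
  induction x using HH.induction with
  | hadd x x' hx hx' => simp only [map_add, LinearMap.add_apply, hx, hx']
  | hsmul c x hx => simp only [map_smul, LinearMap.smul_apply, hx]
  | he p =>
    induction y using HH.induction with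
    | hadd x x' hx hx' => simp only [map_add, LinearMap.add_apply, hx, hx']
    | hsmul c x hx => simp only [map_smul, LinearMap.smul_apply, hx]
    | he q =>
      induction z using HH.induction with
      | hadd x x' hx hx' => simp only [map_add, hx, hx']
      | hsmul c x hx => simp only [map_smul, hx]
      | he r =>
        obtain ⟨i, s⟩ := p
        obtain ⟨j, s'⟩ := q
        obtain ⟨l, s''⟩ := r
        have h1 : (sg (j + l) : k) = sg j * sg l := by rw [sg_add]; push_cast; ring
        have h2 : (sg l * sg l : k) = 1 := by
          rw [← Int.cast_mul, sg_mul_self, Int.cast_one]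
        cases s <;> cases s' <;> cases s'' <;>
          simp only [mulT_e, mulB, map_smul, LinearMap.smul_apply, smul_smul, add_assoc, h1] <;>
          congr 1 <;> first | ring1 | linear_combination (-t * sg j) * h2

theorem one_mulT (t : k) (x : HH k) : mulT t (e (0, false)) x = x := by
  induction x using HH.induction with
  | hadd x x' hx hx' => rw [map_add, hx, hx']
  | hsmul c x hx => rw [map_smul, hx]
  | he p => simp [mulB]

theorem mulT_one (t : k) (x : HH k) : mulT t x (e (0, false)) = x := by
  induction x using HH.induction with
  | hadd x x' hx hx' => rw [map_add, LinearMap.add_apply, hx, hx']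
  | hsmul c x hx => rw [map_smul, LinearMap.smul_apply, hx]
  | he p =>
    obtain ⟨i, s⟩ := p
    cases s <;> simp [mulB, sg_zero]

noncomputable instance : Mul (HH k) := ⟨fun x y => mulT 0 x y⟩
noncomputable instance : One (HH k) := ⟨e (0, false)⟩

theorem mul_def (x y : HH k) : x * y = mulT 0 x y := rfl
theorem one_def : (1 : HH k) = e (0, false) := rfl

noncomputable instance : Ring (HH k) where
  left_distrib a b c := by simp only [mul_def, map_add]
  right_distrib a b c := by simp only [mul_def, map_add, LinearMap.add_apply]
  zero_mul a := by simp only [mul_def, map_zero, LinearMap.zero_apply]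
  mul_zero a := by simp only [mul_def, map_zero]
  mul_assoc a b c := mulT_assoc 0 a b c
  one_mul a := one_mulT 0 a
  mul_one a := mulT_one 0 a
  zsmul := zsmulRec
  neg_add_cancel := neg_add_cancel
  sub_eq_add_neg := sub_eq_add_neg

noncomputable instance : Algebra k (HH k) :=
  Algebra.ofModule (fun r x y => by simp only [mul_def, map_smul, LinearMap.smul_apply])
    (fun r x y => by simp only [mul_def, map_smul])

theorem e_mul_e (p q : ZMod 4 × Bool) : (e p : HH k) * e q = mulB 0 p q := mulT_e 0 p q

/-- the comultiplication on basis vectors -/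
noncomputable def comulB : ZMod 4 × Bool → HH k ⊗[k] HH k
  | (i, false) => e (i, false) ⊗ₜ e (i, false)
  | (i, true) => e (i, true) ⊗ₜ e (i, false) + e (i + 1, false) ⊗ₜ e (i, true)

/-- the counit on basis vectors -/
def counitB : ZMod 4 × Bool → k
  | (_, false) => 1
  | (_, true) => 0

noncomputable instance : CoalgebraStruct k (HH k) where
  comul := (bas k).constr k comulB
  counit := (bas k).constr k counitB

theorem comul_e (p : ZMod 4 × Bool) : Coalgebra.comul (R := k) (e p : HH k) = comulB p := by
  show (bas k).constr k comulB (e p) = _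
  rw [← bas_apply, Module.Basis.constr_basis]

theorem counit_e (p : ZMod 4 × Bool) : Coalgebra.counit (R := k) (e p : HH k) = counitB p := by
  show (bas k).constr k counitB (e p) = _
  rw [← bas_apply, Module.Basis.constr_basis]

noncomputable instance : Coalgebra k (HH k) where
  coassoc := by
    refine (bas k).ext fun p => ?_
    obtain ⟨i, s⟩ := p
    cases s <;>
      simp [bas_apply, comul_e, comulB, TensorProduct.tmul_add, TensorProduct.add_tmul]
    abel
  rTensor_counit_comp_comul := by
    refine (bas k).ext fun p => ?_
    obtain ⟨i, s⟩ := p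
    cases s <;>
      simp [bas_apply, comul_e, comulB, counit_e, counitB]
  lTensor_counit_comp_comul := by
    refine (bas k).ext fun p => ?_
    obtain ⟨i, s⟩ := p
    cases s <;>
      simp [bas_apply, comul_e, comulB, counit_e, counitB]

theorem sg_cast_add (i j : ZMod 4) : (sg (i + j) : k) = sg i * sg j := by
  rw [sg_add]; push_cast; rfl

theorem sg_cast_sq (i : ZMod 4) : (sg i * sg i : k) = 1 := by
  rw [← Int.cast_mul, sg_mul_self, Int.cast_one]

theorem comul_mul (x y : HH k) : Coalgebra.comul (R := k) (x * y) =
    Coalgebra.comul (R := k) x * Coalgebra.comul (R := k) y := by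
  induction x using HH.induction with
  | hadd x x' hx hx' => rw [add_mul, map_add, map_add, add_mul, hx, hx']
  | hsmul c x hx => rw [smul_mul_assoc, map_smul, map_smul, smul_mul_assoc, hx]
  | he p =>
    induction y using HH.induction with
    | hadd x x' hx hx' => rw [mul_add, map_add, map_add, mul_add, hx, hx']
    | hsmul c x hx => rw [mul_smul_comm, map_smul, map_smul, mul_smul_comm, hx]
    | he q =>
      obtain ⟨i, s⟩ := p
      obtain ⟨j, s'⟩ := q
      have h1 : (sg (j + 1) : k) = - sg j := by rw [sg_cast_add, sg_one]; push_cast; ring
      cases s <;> cases s'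
      · simp [comul_e, e_mul_e, mulB, comulB]
      · simp [comul_e, e_mul_e, mulB, comulB, mul_add, add_assoc]
      · simp [comul_e, e_mul_e, mulB, comulB, add_mul, add_right_comm, TensorProduct.tmul_smul,
          TensorProduct.smul_tmul', smul_add]
      · simp [comul_e, e_mul_e, mulB, comulB, add_mul, mul_add, h1, TensorProduct.tmul_smul,
          ← TensorProduct.smul_tmul', TensorProduct.neg_tmul, add_right_comm, add_assoc]
        exact (add_neg_cancel _).symm

theorem counit_mul (x y : HH k) : Coalgebra.counit (R := k) (x * y) =
    Coalgebra.counit (R := k) x * Coalgebra.counit (R := k) y := by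
  induction x using HH.induction with
  | hadd x x' hx hx' => rw [add_mul, map_add, map_add, add_mul, hx, hx']
  | hsmul c x hx => rw [smul_mul_assoc, map_smul, map_smul, smul_mul_assoc, hx]
  | he p =>
    induction y using HH.induction with
    | hadd x x' hx hx' => rw [mul_add, map_add, map_add, mul_add, hx, hx']
    | hsmul c x hx => rw [mul_smul_comm, map_smul, map_smul, mul_smul_comm, hx]
    | he q =>
      obtain ⟨i, s⟩ := p
      obtain ⟨j, s'⟩ := q
      cases s <;> cases s' <;> simp [e_mul_e, mulB, counit_e, counitB]

noncomputable instance : Bialgebra k (HH k) :=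
  Bialgebra.mk' k (HH k) (by rw [one_def]; exact counit_e _) (counit_mul _ _)
    (by rw [one_def]; exact comul_e _) (comul_mul _ _)

/-- the antipode on basis vectors -/
noncomputable def antiB : ZMod 4 × Bool → HH k
  | (i, false) => e (-i, false)
  | (i, true) => (-sg i : k) • e (-1 - i, true)

/-- the antipode -/
noncomputable def anti : HH k →ₗ[k] HH k := (bas k).constr k antiB

theorem anti_e (p : ZMod 4 × Bool) : anti (e p : HH k) = antiB p := by
  rw [anti, ← bas_apply, Module.Basis.constr_basis]

noncomputable instance : HopfAlgebra k (HH k) where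
  antipode := anti
  mul_antipode_rTensor_comul := by
    refine (bas k).ext fun p => ?_
    obtain ⟨i, s⟩ := p
    cases s
    · simp [bas_apply, comul_e, comulB, counit_e, counitB, anti_e, antiB, e_mul_e, mulB,
        one_def]
    · simp [bas_apply, comul_e, comulB, counit_e, counitB, anti_e, antiB, e_mul_e, mulB,
        smul_smul, sg_cast_sq]
  mul_antipode_lTensor_comul := by
    refine (bas k).ext fun p => ?_
    obtain ⟨i, s⟩ := p
    cases s
    · simp [bas_apply, comul_e, comulB, counit_e, counitB, anti_e, antiB, e_mul_e, mulB,
        one_def]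
    · have h : i + 1 + (-1 - i) = 0 := by ring
      simp [bas_apply, comul_e, comulB, counit_e, counitB, anti_e, antiB, e_mul_e, mulB,
        sg_neg, h]

end Pool.Agent.R710.Doi
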